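import Pool.Agent.H31R3.CantorGroup

set_option autoImplicit false

/-! Under CH there is a subgroup of the Baer-Specker group of size continuum with the
selection property S_1(B_Omega, B_Gamma). -/

namespace Pool.Agent.Results.MP_cc0654_lc.BorelGammaGroup

open Cardinal MeasureTheory

/-- `U` is an omega-cover of the space `X`: `X` itself is not a member, and every finite subset of
`X` is contained in some member. -/
def OmegaCover (X : Type) (U : Set (Set X)) : Prop :=
  Set.univ ∉ U ∧ ∀ F : Finset X, ∃ B ∈ U, (F : Set X) ⊆ B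

/-- `U` is a gamma-cover of the space `X`: it is infinite, and each point of `X` lies in all but
finitely many members. -/
def GammaCover (X : Type) (U : Set (Set X)) : Prop :=
  U.Infinite ∧ ∀ x : X, {B | B ∈ U ∧ x ∉ B}.Finite

/-- The countable omega-covers of `X` by Borel sets. -/
def BOmega (X : Type) [TopologicalSpace X] : Set (Set (Set X)) :=
  {U | U.Countable ∧ (∀ B ∈ U, MeasurableSet[borel X] B) ∧ OmegaCover X U}

/-- The countable gamma-covers of `X` by Borel sets. -/
def BGamma (X : Type) [TopologicalSpace X] : Set (Set (Set X)) :=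
  {U | U.Countable ∧ (∀ B ∈ U, MeasurableSet[borel X] B) ∧ GammaCover X U}

/-- The selection principle `S_1(A, B)` for families `A`, `B` of covers of `X`. -/
def S1 (X : Type) (A B : Set (Set (Set X))) : Prop :=
  ∀ U : ℕ → Set (Set X), (∀ n, U n ∈ A) →
    ∃ V : ℕ → Set X, (∀ n, V n ∈ U n) ∧ Set.range V ∈ B

theorem result (hCH : (ℵ₁ : Cardinal.{0}) = 𝔠) :
    ∃ G : AddSubgroup (ℕ → ℤ), #G = 𝔠 ∧ S1 G (BOmega G) (BGamma G) := by
  classical
  obtain ⟨X, hX, hU⟩ := Pool.Agent.H31R3.Fusion.core hCH
  refine ⟨(Submodule.span ℤ X).toAddSubgroup, ?_, ?_⟩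
  · apply le_antisymm
    · refine (mk_set_le ((Submodule.span ℤ X : Submodule ℤ (ℕ → ℤ)) : Set (ℕ → ℤ))).trans ?_
      rw [← power_def]
      simp
    · rw [← hCH]
      exact hX.trans (mk_le_mk_of_subset (Submodule.subset_span (s := X) (R := ℤ)))
  · set G : AddSubgroup (ℕ → ℤ) := (Submodule.span ℤ X).toAddSubgroup with hG
    have hmemG : ∀ x : ℕ → ℤ, x ∈ G ↔ x ∈ Submodule.span ℤ X := fun x => Iff.rfl
    intro 𝒰 h𝒰
    -- enumerate the covers
    have hne : ∀ n, (𝒰 n).Nonempty := by
      intro n
      obtain ⟨B, hB, -⟩ := (h𝒰 n).2.2.2 ∅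
      exact ⟨B, hB⟩
    have henum : ∀ n, ∃ e : ℕ → Set G, 𝒰 n = Set.range e := fun n =>
      (h𝒰 n).1.exists_eq_range (hne n)
    choose e he using henum
    have heU : ∀ n l, e n l ∈ 𝒰 n := fun n l => by rw [he n]; exact Set.mem_range_self l
    -- extend to Borel subsets of the ambient group
    have hext : ∀ n l, ∃ D : Set (ℕ → ℤ), MeasurableSet[borel (ℕ → ℤ)] D ∧
        Subtype.val ⁻¹' D = e n l := by
      intro n l
      have h1 := (h𝒰 n).2.1 _ (heU n l)
      have h2 : borel G = MeasurableSpace.comap Subtype.val (borel (ℕ → ℤ)) := borel_comap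
      rw [h2] at h1
      obtain ⟨D, hD, hDe⟩ := h1
      exact ⟨D, hD, hDe⟩
    choose D hD hDe using hext
    rcases hU D hD with ⟨m, F, hF, hFl⟩ | ⟨B, hB⟩
    · exfalso
      obtain ⟨C, hC, hFC⟩ := (h𝒰 m).2.2.2
        (F.attach.image fun x : {y // y ∈ F} => (⟨x.1, hF x.1 x.2⟩ : G))
      rw [he m] at hC
      obtain ⟨l, rfl⟩ := hC
      apply hFl l
      intro x hx
      have h1 : (⟨x, hF x hx⟩ : G) ∈ e m l := by
        apply hFC
        rw [Finset.mem_coe, Finset.mem_image]
        exact ⟨⟨x, hx⟩, Finset.mem_attach _ _, rfl⟩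
      rw [← hDe m l] at h1
      exact h1
    · refine ⟨fun m => e m (B m), fun m => heU m _, ?_, ?_, ?_, ?_⟩
      · exact Set.countable_range _
      · rintro _ ⟨m, rfl⟩
        exact (h𝒰 m).2.1 _ (heU m _)
      · -- infinite
        intro hfin
        have hmem : ∀ x : G, ∀ᶠ m in Filter.atTop, x ∈ e m (B m) := by
          intro x
          filter_upwards [hB x x.2] with m hm
          rw [← hDe m (B m)]
          exact hm
        obtain ⟨C, hC, hCinf⟩ : ∃ C ∈ Set.range (fun m => e m (B m)),
            {m | e m (B m) = C}.Infinite := by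
          by_contra hcon
          push Not at hcon
          have h1 : (⋃ C ∈ Set.range (fun m => e m (B m)), {m : ℕ | e m (B m) = C}).Finite :=
            hfin.biUnion fun C hC => hcon C hC
          refine Set.infinite_univ (α := ℕ) (h1.subset ?_)
          intro m _
          exact Set.mem_iUnion₂.2 ⟨_, ⟨m, rfl⟩, rfl⟩
        have hCuniv : C = Set.univ := by
          ext x
          refine ⟨fun _ => trivial, fun _ => ?_⟩
          obtain ⟨N, hN⟩ := Filter.eventually_atTop.1 (hmem x)
          obtain ⟨m, hm, hmN⟩ := hCinf.exists_gt N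
          have := hN m hmN.le
          rwa [hm] at this
        obtain ⟨m, hm⟩ := hC
        have h2 := heU m (B m)
        simp only at hm
        rw [hm, hCuniv] at h2
        exact (h𝒰 m).2.2.1 h2
      · intro x
        have h1 : ∀ᶠ m in Filter.atTop, x ∈ e m (B m) := by
          filter_upwards [hB x x.2] with m hm
          rw [← hDe m (B m)]
          exact hm
        obtain ⟨N, hN⟩ := Filter.eventually_atTop.1 h1
        refine ((Set.finite_Iio N).image (fun m => e m (B m))).subset ?_
        rintro C ⟨⟨m, rfl⟩, hx⟩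
        refine ⟨m, ?_, rfl⟩
        by_contra hmN
        exact hx (hN m (not_lt.1 hmN))

end Pool.Agent.Results.MP_cc0654_lc.BorelGammaGroup
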